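import Pool.Agent.Helper22.MEI.Hess
import Pool.Agent.Helper22.MEI.Facts2

/-!
# MEI, row B: pointwise facts (P3), (P4), (P5) for admissible functions
-/

namespace Helper80.MEI

open Set Helper22.MEI

variable {f : ℝ × ℝ → ℝ}

/-- the third coordinate of the gradient point of `f`, minus `t` -/
noncomputable def ww (f : ℝ × ℝ → ℝ) (p : ℝ × ℝ) : ℝ :=
  f p - p.1 * dX f p - p.2 * dY f p - t

theorem t_val : t = s / 2 := by unfold s t; ring

/-- (P3), first coordinate -/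
theorem x_le (h : Adm f) {p : ℝ × ℝ} (h1 : |p.1| ≤ s) (h2 : |p.2| ≤ s) : |dX f p| ≤ 1 / 2 := by
  obtain ⟨x, y⟩ := p
  simp only at h1 h2
  have hs := s_pos
  obtain ⟨ha, hb⟩ := abs_le.1 h1
  have e1 := h.gXX (s, y) (abs_of_pos hs) h2
  have e2 := h.gXX (-s, y) (by simp [abs_of_pos hs]) h2
  have m1 := dX_mono h y hb
  have m2 := dX_mono h y ha
  simp only at e1 e2
  rw [e1] at m1
  rw [e2] at m2
  have e3 : s / (2 * s) = 1 / 2 := by field_simp
  have e4 : -s / (2 * s) = -(1 / 2) := by field_simp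
  rw [e3] at m1
  rw [e4] at m2
  exact abs_le.2 ⟨m2, m1⟩

theorem inv_NN_le {x : ℝ} : s / NN (x, s) ≤ 1 / √3 := by
  have hs := s_pos
  have hn := NN_pos (x, s)
  rw [div_le_div_iff₀ hn (by positivity), one_mul]
  have h3 : √3 ^ 2 = 3 := Real.sq_sqrt (by norm_num)
  have hn2 := NN_sq (x, s)
  simp only [s_sq] at hn2
  refine abs_le_of_sq_le_sq' ?_ hn.le |>.2
  rw [mul_pow, h3, s_sq, hn2]
  nlinarith [sq_nonneg x]

/-- (P3), second coordinate -/
theorem y_le (h : Adm f) {p : ℝ × ℝ} (h1 : |p.1| ≤ s) (h2 : |p.2| ≤ s) :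
    |dY f p| ≤ 1 / √3 - 1 / 2 := by
  obtain ⟨x, y⟩ := p
  simp only at h1 h2
  have hs := s_pos
  obtain ⟨ha, hb⟩ := abs_le.1 h2
  have e1 := h.gYY (x, s) (abs_of_pos hs) h1
  have e2 := h.gYY (x, -s) (by simp [abs_of_pos hs]) h1
  have m1 := dY_mono h x hb
  have m2 := dY_mono h x ha
  simp only at e1 e2
  rw [e1] at m1
  rw [e2] at m2
  have e3 : s / (2 * s) = 1 / 2 := by field_simp
  have e4 : -s / (2 * s) = -(1 / 2) := by field_simp
  have e5 : NN (x, -s) = NN (x, s) := by unfold NN; simp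
  rw [e3] at m1
  rw [e4, e5, neg_div] at m2
  have := @inv_NN_le x
  exact abs_le.2 ⟨by linarith, by linarith⟩

theorem y_num : 1 / √3 - 1 / 2 ≤ 0.0774 := by
  have h : (1.7320 : ℝ) ≤ √3 := Real.le_sqrt_of_sq_le (by norm_num)
  have : 1 / √3 ≤ 1 / 1.7320 := one_div_le_one_div_of_le (by norm_num) h
  linarith [show (1 : ℝ) / 1.7320 ≤ 0.5774 by norm_num]

/-- (P3) for `g = N - f` -/
theorem gY_le (h : Adm f) {p : ℝ × ℝ} (h1 : |p.1| ≤ s) (h2 : |p.2| ≤ s) :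
    |p.2 / NN p - dY f p| ≤ 1 / 2 := by
  have := x_le h.swap (p := (p.2, p.1)) h2 h1
  rwa [dX_sw h.diff, NN_swap] at this

theorem gX_le (h : Adm f) {p : ℝ × ℝ} (h1 : |p.1| ≤ s) (h2 : |p.2| ≤ s) :
    |p.1 / NN p - dX f p| ≤ 1 / √3 - 1 / 2 := by
  have := y_le h.swap (p := (p.2, p.1)) h2 h1
  rwa [dY_sw h.diff, NN_swap] at this

/-- The monotone gradient of the homogeneous extension: `p(f)(P)`, `p(f)(Q)` against
`ρ (Q, 1) - (P, 1)`. -/
theorem mono3 (h : Adm f) (p q : ℝ × ℝ) {ρ : ℝ} (hρ : 0 ≤ ρ) :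
    dX f p * (ρ * q.1 - p.1) + dY f p * (ρ * q.2 - p.2)
        + (f p - p.1 * dX f p - p.2 * dY f p) * (ρ - 1)
      ≤ dX f q * (ρ * q.1 - p.1) + dY f q * (ρ * q.2 - p.2)
        + (f q - q.1 * dX f q - q.2 * dY f q) * (ρ - 1) := by
  have h1 := h.tang p (q - p)
  have h2 := h.tang q (p - q)
  rw [show p + (q - p) = q by ring] at h1
  rw [show q + (p - q) = p by ring] at h2
  simp only [Prod.fst_sub, Prod.snd_sub] at h1 h2
  nlinarith [mul_le_mul_of_nonneg_left h1 hρ]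

/-- exit of the ray from `(p, 1)` in the direction `(0, σ c, -d)` -/
theorem exit_pt {x y e d : ℝ} (h1 : |x| ≤ s) (h2 : |y| ≤ s) (hd : 0 < d)
    (hx : x ≠ 0 ∨ y + e / d ≠ 0) :
    ∃ τ ρ : ℝ, 0 ≤ τ ∧ 0 < ρ ∧ ρ = 1 - τ * d ∧
      ((|x / ρ| = s ∧ |(y + τ * e) / ρ| ≤ s) ∨ (|(y + τ * e) / ρ| = s ∧ |x / ρ| ≤ s)) := by
  have hs := s_pos
  set φ : ℝ → ℝ := fun τ => max |x| |y + τ * e| - s * (1 - τ * d) with hφ
  have hc : ContinuousOn φ (Icc 0 (1 / d)) := by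
    apply Continuous.continuousOn
    rw [hφ]; fun_prop
  have h0 : φ 0 ≤ 0 := by
    simp only [hφ, zero_mul, add_zero, sub_zero, mul_one, sub_nonpos]
    exact max_le h1 h2
  have h3 : 0 < φ (1 / d) := by
    have e1 : 1 / d * d = 1 := by field_simp
    have e2 : y + 1 / d * e = y + e / d := by ring
    simp only [hφ, e1, sub_self, mul_zero, sub_zero, e2]
    rcases hx with hx | hx
    · exact lt_max_of_lt_left (abs_pos.2 hx)
    · exact lt_max_of_lt_right (abs_pos.2 hx)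
  obtain ⟨τ, hτ, hz⟩ := intermediate_value_Icc (by positivity) hc ⟨h0, h3.le⟩
  have hlt : τ < 1 / d := by
    rcases hτ.2.eq_or_lt with e | e
    · rw [e] at hz; linarith
    · exact e
  have hρ : 0 < 1 - τ * d := by
    have := (lt_div_iff₀ hd).1 hlt
    linarith
  refine ⟨τ, 1 - τ * d, hτ.1, hρ, rfl, ?_⟩
  have hm : max |x| |y + τ * e| = s * (1 - τ * d) := by
    simp only [hφ] at hz; linarith
  have ex : |x / (1 - τ * d)| = |x| / (1 - τ * d) := by rw [abs_div, abs_of_pos hρ]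
  have ey : |(y + τ * e) / (1 - τ * d)| = |y + τ * e| / (1 - τ * d) := by
    rw [abs_div, abs_of_pos hρ]
  rw [ex, ey]
  rcases le_total |x| |y + τ * e| with hle | hle
  · right
    rw [max_eq_right hle] at hm
    constructor
    · rw [hm]; field_simp
    · rw [div_le_iff₀ hρ, ← hm]; exact hle
  · left
    rw [max_eq_left hle] at hm
    constructor
    · rw [hm]; field_simp
    · rw [div_le_iff₀ hρ, ← hm]; exact hle

/-- boundary value of `ww` on `|X| = s` -/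
theorem ww_bX (h : Adm f) {p : ℝ × ℝ} (h1 : |p.1| = s) (h2 : |p.2| ≤ s) :
    ww f p = 0 := by
  have hs := s_pos
  unfold ww
  rw [h.bX p h1 h2, h.gXX p h1 h2, h.gXY p h1 h2]
  have e : p.1 * p.1 = s * s := by rw [← abs_mul_abs_self, h1]
  have e2 : p.1 * (p.1 / (2 * s)) = s / 2 := by
    rw [← mul_div_assoc, e]; field_simp
  rw [e2]; ring

/-- boundary value of `ww` on `|Y| = s` -/
theorem ww_bY (h : Adm f) {p : ℝ × ℝ} (h1 : |p.2| = s) (h2 : |p.1| ≤ s) :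
    ww f p = 1 / NN p - s := by
  have hs := s_pos
  have hn := NN_pos p
  have hn2 := NN_sq p
  unfold ww
  rw [h.bY p h1 h2, h.gYX p h1 h2, h.gYY p h1 h2]
  have e : p.2 * p.2 = s * s := by rw [← abs_mul_abs_self, h1]
  have e2 : p.2 * (p.2 / (2 * s)) = s / 2 := by
    rw [← mul_div_assoc, e]; field_simp
  have e3 : p.1 * (p.1 / NN p) + p.2 * (p.2 / NN p) = NN p - 1 / NN p := by
    field_simp; linarith
  have := st
  rw [t_val] at *
  rw [mul_sub, e2]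
  linarith

theorem NN_le_b {p : ℝ × ℝ} (h1 : |p.1| ≤ s) (h2 : |p.2| ≤ s) : NN p * s ≤ 1 := by
  have hs := s_pos
  have hn := NN_pos p
  have e1 := sq_le_sq' (abs_le.1 h1).1 (abs_le.1 h1).2
  have e2 := sq_le_sq' (abs_le.1 h2).1 (abs_le.1 h2).2
  rw [s_sq] at e1 e2
  have : (NN p * s) ^ 2 ≤ 1 ^ 2 := by
    rw [mul_pow, NN_sq, s_sq]; linarith
  exact (abs_le_of_sq_le_sq' this zero_le_one).2

theorem bd_NN {p : ℝ × ℝ} (h1 : |p.1| ≤ s) (h2 : |p.2| ≤ s) : s ≤ 1 / NN p := by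
  rw [le_div_iff₀ (NN_pos p), mul_comm]; exact NN_le_b h1 h2

/-- `w ≥ 0` at the points different from `0` -/
theorem ww_nonneg' (h : Adm f) {p : ℝ × ℝ} (h1 : |p.1| ≤ s) (h2 : |p.2| ≤ s)
    (h0 : p.1 ≠ 0 ∨ p.2 ≠ 0) : 0 ≤ ww f p := by
  have h0' : p.1 ≠ 0 ∨ p.2 + 0 / 1 ≠ 0 := by simpa using h0
  obtain ⟨τ, ρ, hτ, hρ, he, hb⟩ := exit_pt (e := 0) h1 h2 one_pos h0'
  set q : ℝ × ℝ := (p.1 / ρ, (p.2 + τ * 0) / ρ) with hq
  have hm := mono3 h p q hρ.le
  have e1 : ρ * q.1 - p.1 = 0 := by rw [hq]; field_simp; ring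
  have e2 : ρ * q.2 - p.2 = 0 := by rw [hq]; field_simp; ring
  rw [e1, e2] at hm
  have hw : 0 ≤ ww f q := by
    rcases hb with ⟨a, b⟩ | ⟨a, b⟩
    · exact (ww_bX h a b).ge
    · rw [ww_bY h a b]
      have := bd_NN (p := q) b a.le
      linarith
  rcases hτ.eq_or_lt with h00 | hpos
  · have hρ1 : ρ = 1 := by rw [he, ← h00]; ring
    have : q = p := by
      rw [hq, hρ1]; ext <;> simp
    rwa [this] at hw
  · have hr : ρ - 1 < 0 := by rw [he]; linarith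
    unfold ww at *
    nlinarith

theorem ww_cont (h : Adm f) : Continuous (ww f) := by
  have := h.cX
  have := h.cY
  have := h.diff.continuous
  unfold ww
  fun_prop

/-- (P3), third coordinate -/
theorem ww_nonneg (h : Adm f) {p : ℝ × ℝ} (h1 : |p.1| ≤ s) (h2 : |p.2| ≤ s) : 0 ≤ ww f p := by
  by_cases h0 : p.1 ≠ 0 ∨ p.2 ≠ 0
  · exact ww_nonneg' h h1 h2 h0
  · push Not at h0
    have hp : p = (0, 0) := Prod.ext h0.1 h0.2
    have hs := s_pos
    have hl : Filter.Tendsto (fun x : ℝ => ww f (x, 0)) (nhdsWithin 0 (Ioi 0)) (nhds (ww f (0, 0))) :=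
      ((ww_cont h).comp (by fun_prop : Continuous fun x : ℝ => (x, (0 : ℝ)))).continuousAt.tendsto.mono_left
        nhdsWithin_le_nhds
    rw [hp]
    refine ge_of_tendsto hl ?_
    filter_upwards [Ioo_mem_nhdsGT hs] with x hx
    refine ww_nonneg' h ?_ ?_ (Or.inl hx.1.ne')
    · rw [abs_of_pos hx.1]; exact hx.2.le
    · simpa using hs.le

/-- (P3) for `g = N - f` -/
theorem wg_nonneg (h : Adm f) {p : ℝ × ℝ} (h1 : |p.1| ≤ s) (h2 : |p.2| ≤ s) :
    0 ≤ ww (sw f) p := ww_nonneg h.swap h1 h2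

end Helper80.MEI
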