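import Pool.Agent.Helper80.MEI.P3

/-!
# MEI, row B: (P4) `|y| ≤ w / √2`, (P5) `x² + r² + √3 r ≥ 1/4`
-/

namespace Helper80.MEI

open Set Helper22.MEI

variable {f : ℝ × ℝ → ℝ}

theorem two_s : 2 * s * s = 1 := by have := s_sq; nlinarith

/-- boundary values of `σ y - s (w + t)` -/
theorem dir_b (h : Adm f) {σ : ℝ} (hσ : σ = 1 ∨ σ = -1) {q : ℝ × ℝ}
    (hb : (|q.1| = s ∧ |q.2| ≤ s) ∨ (|q.2| = s ∧ |q.1| ≤ s)) :
    σ * dY f q ≤ s * ww f q := by
  have hs := s_pos
  rcases hb with ⟨a, b⟩ | ⟨a, b⟩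
  · rw [ww_bX h a b, h.gXY q a b]; simp
  · rw [ww_bY h a b, h.gYY q a b]
    have hn := NN_pos q
    have h1 := bd_NN (p := q) b a.le
    have h2 := s_sq
    have e3 : (q.2 / (2 * s)) = q.2 * s := by
      rw [div_eq_iff (by positivity)]
      linear_combination (-2 * q.2) * h2
    have e4 : q.2 / NN q = q.2 * (1 / NN q) := by ring
    rw [e3, e4]
    have hq : q.2 = s ∨ q.2 = -s := by
      rcases abs_cases q.2 with ⟨e, _⟩ | ⟨e, _⟩
      · left; rw [← a, e]
      · right; rw [← a, e]; ring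
    rcases hσ with rfl | rfl <;> rcases hq with e | e <;> rw [e] <;> nlinarith

/-- (P4) -/
theorem y_le_w (h : Adm f) {p : ℝ × ℝ} (h1 : |p.1| ≤ s) (h2 : |p.2| ≤ s) :
    |dY f p| ≤ s * ww f p := by
  have hs := s_pos
  have key : ∀ σ : ℝ, (σ = 1 ∨ σ = -1) → σ * dY f p ≤ s * ww f p := by
    intro σ hσ
    have hne : p.2 + σ / s ≠ 0 := by
      obtain ⟨ha, hb⟩ := abs_le.1 h2
      have h2s := s_sq
      have : s < 1 / s := by rw [lt_div_iff₀ hs]; nlinarith
      rcases hσ with rfl | rfl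
      · linarith
      · rw [neg_div]; linarith
    obtain ⟨τ, ρ, hτ, hρ, he, hb⟩ := exit_pt (e := σ) h1 h2 hs (Or.inr hne)
    set q : ℝ × ℝ := (p.1 / ρ, (p.2 + τ * σ) / ρ) with hq
    have hm := mono3 h p q hρ.le
    have e1 : ρ * q.1 - p.1 = 0 := by rw [hq]; field_simp; ring
    have e2 : ρ * q.2 - p.2 = τ * σ := by rw [hq]; field_simp; ring
    have e3 : ρ - 1 = -(τ * s) := by rw [he]; ring
    rw [e1, e2, e3] at hm
    have hw := dir_b h hσ (q := q) hb
    rcases hτ.eq_or_lt with h00 | hpos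
    · have hρ1 : ρ = 1 := by rw [he, ← h00]; ring
      have : q = p := by
        rw [hq, hρ1, ← h00]; ext <;> simp
      rwa [this] at hw
    · unfold ww at *
      have h3 : τ * (σ * dY f p - s * (f p - p.1 * dX f p - p.2 * dY f p - t))
          ≤ τ * (σ * dY f q - s * (f q - q.1 * dX f q - q.2 * dY f q - t)) := by nlinarith
      have h4 := le_of_mul_le_mul_left h3 hpos
      linarith
  rcases abs_cases (dY f p) with ⟨e, _⟩ | ⟨e, _⟩
  · rw [e]; simpa using key 1 (Or.inl rfl)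
  · rw [e]; simpa using key (-1) (Or.inr rfl)

/-- (P4) with square root of two -/
theorem y_le_w' (h : Adm f) {p : ℝ × ℝ} (h1 : |p.1| ≤ s) (h2 : |p.2| ≤ s) :
    |dY f p| ≤ ww f p / √2 := by
  have := y_le_w h h1 h2
  have e : s * ww f p = ww f p / √2 := by
    have h2 : √2 * √2 = 2 := Real.mul_self_sqrt (by norm_num)
    unfold s
    rw [eq_div_iff (by positivity)]
    linear_combination (ww f p / 2) * h2
  rwa [← e]

/-- distance from the axis -/
noncomputable def rr (f : ℝ × ℝ → ℝ) (p : ℝ × ℝ) : ℝ := √(dY f p ^ 2 + ww f p ^ 2)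

theorem rr_sq (f : ℝ × ℝ → ℝ) (p : ℝ × ℝ) : rr f p ^ 2 = dY f p ^ 2 + ww f p ^ 2 :=
  Real.sq_sqrt (by positivity)

theorem rr_nonneg (f : ℝ × ℝ → ℝ) (p : ℝ × ℝ) : 0 ≤ rr f p := Real.sqrt_nonneg _

/-- `√2 r ≤ √2 w + |y|` -/
theorem rr_le (h : Adm f) {p : ℝ × ℝ} (h1 : |p.1| ≤ s) (h2 : |p.2| ≤ s) :
    √2 * rr f p ≤ √2 * ww f p + |dY f p| := by
  have hy := y_le_w h h1 h2
  have hw := ww_nonneg h h1 h2
  have h2 : √2 ^ 2 = 2 := Real.sq_sqrt (by norm_num)
  have h20 : 0 < √2 := by positivity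
  have hab := abs_nonneg (dY f p)
  have hsa := sq_abs (dY f p)
  refine abs_le_of_sq_le_sq' ?_ (by positivity) |>.2
  rw [mul_pow, rr_sq, h2]
  have h3 : |dY f p| * |dY f p| ≤ |dY f p| * (s * ww f p) := mul_le_mul_of_nonneg_left hy hab
  have e : √2 = 2 * s := by unfold s; ring
  have h4 : (√2 * ww f p + |dY f p|) ^ 2
      = 2 * ww f p ^ 2 + 4 * (|dY f p| * (s * ww f p)) + dY f p ^ 2 := by
    linear_combination (ww f p ^ 2) * h2 + hsa + (2 * ww f p * |dY f p|) * e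
  rw [h4, ← hsa]
  nlinarith [mul_nonneg hab (mul_nonneg s_pos.le hw)]

/-- outer leaf: (P2) and (P4) -/
theorem outer (h : Adm f) {p : ℝ × ℝ} (h1 : |p.1| ≤ s) (h2 : |p.2| ≤ s)
    (hP2 : dX f p ^ 2 + dY f p ^ 2 + ww f p ^ 2 + √2 * ww f p + |dY f p| ≤ 1 / 4) :
    dX f p ^ 2 + rr f p ^ 2 + √2 * rr f p ≤ 1 / 4 := by
  have := rr_le h h1 h2
  rw [rr_sq]; linarith

/-- (P5) -/
theorem inner (h : Adm f) {p : ℝ × ℝ} (h1 : |p.1| ≤ s) (h2 : |p.2| ≤ s) :
    1 / 4 ≤ dX f p ^ 2 + rr f p ^ 2 + √3 * rr f p := by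
  have hf := h.f1_le h2
  have hx := x_le h h1 h2
  have hr := rr_nonneg f p
  have hr2 := rr_sq f p
  have h3 : √3 ^ 2 = 3 := Real.sq_sqrt (by norm_num)
  have h30 : 0 < √3 := by positivity
  have hB := AA_pos p.2
  have hB2 := AA_sq p.2
  have hN := NN_pos p
  have hN2 := NN_sq p
  have hax := abs_nonneg (dX f p)
  have hsx := sq_abs (dX f p)
  have hXx : p.1 * dX f p ≤ |p.1| * |dX f p| := by
    rw [← abs_mul]; exact le_abs_self _
  have hsX := sq_abs p.1
  have haX := abs_nonneg p.1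
  -- Cauchy-Schwarz in the plane orthogonal to the axis
  have hcs : p.2 * dY f p + ww f p ≤ AA p.2 * rr f p := by
    refine abs_le_of_sq_le_sq' ?_ (by positivity) |>.2
    rw [mul_pow, hr2, hB2]
    nlinarith [sq_nonneg (p.2 * ww f p - dY f p)]
  have hv : f p - t = p.1 * dX f p + (p.2 * dY f p + ww f p) := by unfold ww; ring
  unfold f1 f0 at hf
  simp only at hf
  split_ifs at hf with hc
  · -- the middle part
    have e1 : NN p ≤ |p.1| * |dX f p| + AA p.2 * (rr f p + c3) := by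
      have : NN p - c3 * AA p.2 ≤ f p - t := by linarith
      rw [hv] at this
      linarith
    have e2 : NN p ^ 2 = |p.1| ^ 2 + AA p.2 ^ 2 := by rw [hN2, hsX, hB2]; ring
    have hk : 0 ≤ rr f p + c3 := by have := c3_pos; linarith
    have e3 : (|p.1| * |dX f p| + AA p.2 * (rr f p + c3)) ^ 2
        ≤ (|p.1| ^ 2 + AA p.2 ^ 2) * (|dX f p| ^ 2 + (rr f p + c3) ^ 2) := by
      nlinarith [sq_nonneg (|p.1| * (rr f p + c3) - AA p.2 * |dX f p|)]
    have e4 : NN p ^ 2 ≤ NN p ^ 2 * (|dX f p| ^ 2 + (rr f p + c3) ^ 2) := by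
      calc NN p ^ 2 ≤ (|p.1| * |dX f p| + AA p.2 * (rr f p + c3)) ^ 2 :=
            pow_le_pow_left₀ hN.le e1 2
        _ ≤ _ := e3
        _ = _ := by rw [e2]
    have hN0 : 0 < NN p ^ 2 := by positivity
    have e5 : 1 ≤ |dX f p| ^ 2 + (rr f p + c3) ^ 2 := by
      by_contra hcon
      push Not at hcon
      nlinarith
    have e6 : (rr f p + c3) ^ 2 = rr f p ^ 2 + √3 * rr f p + 3 / 4 := by
      unfold c3; linear_combination h3 / 4
    rw [e6, hsx] at e5
    linarith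
  · -- the lens part
    push Not at hc
    have e1 : |p.1| / 2 ≤ f p - t := by
      have : NN (p.2, p.1) = NN p := NN_swap p
      rw [this] at hf
      linarith
    rw [hv] at e1
    have e2 : |p.1| * (1 / 2 - |dX f p|) ≤ AA p.2 * rr f p := by nlinarith
    have e3 : AA p.2 ≤ √3 * |p.1| := by
      refine abs_le_of_sq_le_sq' ?_ (by positivity) |>.2
      rw [mul_pow, h3, hB2, hsX]
      linarith
    have hX : 0 < |p.1| := by
      rcases haX.eq_or_lt with e | e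
      · rw [← e] at e3; simp at e3; linarith
      · exact e
    have e4 : |p.1| * (1 / 2 - |dX f p|) ≤ |p.1| * (√3 * rr f p) := by
      have := mul_le_mul_of_nonneg_right e3 hr
      nlinarith
    have e5 := le_of_mul_le_mul_left e4 hX
    rw [← hsx]
    have e6 : 0 ≤ |dX f p| ^ 2 - |dX f p| + 1 / 4 := by
      have := sq_nonneg (|dX f p| - 1 / 2)
      linarith
    have e7 := sq_nonneg (rr f p)
    linarith

end Helper80.MEI
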